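import Pool.Agent.helper25.UC.Z7C

/-!
# Z8B : bounds for `HH`.  See the comment of Z8 (HH bounds).
-/

namespace UC
open Finset
variable {V : Type} [Fintype V] [DecidableEq V] {s k : ℕ}
variable {G : SimpleGraph V} [DecidableRel G.Adj]

theorem Z8B_val (F0 : Flag G s 0) (E τ : ℝ) (z : St V s) (c : V → Fin s) (y : V → ℝ) :
    F0.val E τ z c y = AA G c y c y - E * ∑ v, y v ^ 2 - dsq z.c (nR z) c y / τ := by
  unfold Flag.val Flag.Th
  simp

theorem Z8B_I (F0 : Flag G s 0) (v : V) : v ∉ F0.I := by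
  intro hv
  obtain ⟨j, -⟩ := F0.cover v hv
  exact j.elim0

theorem Z8B_o2 (F0 : Flag G s 0) (z : St V s) : F0.o2 (nR z) = qq z := by
  unfold Flag.o2 qq nR
  simp

theorem Z8B_qq_nonneg (z : St V s) : 0 ≤ qq z := Finset.sum_nonneg fun v _ => sq_nonneg _

/-- size of a maximiser for the rate zero -/
theorem Z8B_mx (F0 : Flag G s 0) (τ : ℝ) (hτ : 0 < τ) (hτ0 : τ ≤ tau0 V) (z : St V s)
    (c : V → Fin s) (y : V → ℝ) (h : F0.IsMx 0 τ z c y) : ∑ v, y v ^ 2 ≤ 8 * qq z := by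
  have hn : (0 : ℝ) ≤ cV V := B1_cV_nonneg
  have hE : |(0 : ℝ)| ≤ cV V + 2 := by rw [abs_zero]; linarith
  have hq := Z8B_qq_nonneg z
  have hQ := B1_Q_nonneg y
  have h1 := F0.env_ge_Th 0 τ hE hτ hτ0 z (fun v hv => absurd hv (Z8B_I F0 v))
  rw [F0.env_eq 0 τ z c y h, Z8B_val] at h1
  have h2 : F0.Th 0 z.c (nR z) = AA G z.c (nR z) z.c (nR z) := by
    unfold Flag.Th
    simp
  rw [h2, zero_mul, sub_zero] at h1
  have h3 := (abs_le.1 (AA_self_le (G := G) c y)).2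
  have h4 := (abs_le.1 (AA_self_le (G := G) z.c (nR z))).1
  have h5 : ∑ v, nR z v ^ 2 = qq z := rfl
  rw [h5] at h4
  have h6 : dsq z.c (nR z) c y / τ ≤ cV V * (∑ v, y v ^ 2 + qq z) := by linarith
  rw [div_le_iff₀ hτ] at h6
  have h7 : τ * cV V ≤ 1 / 128 := by
    have e1 : τ * (16 * (cV V + 2) ^ 2) ≤ 1 := by
      have := hτ0
      unfold tau0 at this
      rwa [le_div_iff₀ (by positivity)] at this
    nlinarith [mul_nonneg hτ.le (sq_nonneg (cV V - 2))]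
  have h8 := B1_dsq_lower z c y
  have h9 : cV V * (∑ v, y v ^ 2 + qq z) * τ ≤ 1 / 128 * (∑ v, y v ^ 2 + qq z) := by
    have e1 : cV V * (∑ v, y v ^ 2 + qq z) * τ = (τ * cV V) * (∑ v, y v ^ 2 + qq z) := by ring
    rw [e1]
    exact mul_le_mul_of_nonneg_right h7 (by linarith)
  linarith

theorem env_small (F0 : Flag G s 0) (τ : ℝ) (hτ : 0 < τ) (hτ0 : τ ≤ tau0 V) (E : ℝ) (hE : 0 < E)
    (hE1 : E ≤ 1) (z : St V s) (hz : F0.env E τ z < 0) : F0.env 0 τ z ≤ 8 * E * qq z := by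
  have hn : (0 : ℝ) ≤ cV V := B1_cV_nonneg
  have h0 : |(0 : ℝ)| ≤ cV V + 2 := by rw [abs_zero]; linarith
  have h1 : |E| ≤ cV V + 2 := by rw [abs_of_pos hE]; linarith
  obtain ⟨c, y, h⟩ := F0.exists_mx 0 τ h0 hτ hτ0 z
  have h2 := F0.le_env E τ h1 hτ hτ0 z c y h.1
  have h3 := Z8B_mx F0 τ hτ hτ0 z c y h
  have h4 := F0.env_eq 0 τ z c y h
  rw [Z8B_val] at h2 h4
  rw [zero_mul, sub_zero] at h4
  have h5 : E * ∑ v, y v ^ 2 ≤ E * (8 * qq z) := mul_le_mul_of_nonneg_left h3 hE.le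
  linarith

theorem Z8B_qq_step (z : St V s) (hz : 1 ≤ tot z) (w : V) :
    Real.sqrt (qq (step G z w)) ≤ (1 + Real.sqrt (cV V)) * Real.sqrt (qq z) := by
  have h1 := (abs_le.1 (rho_step (G := G) z w)).2
  have h2 : 1 ≤ Real.sqrt (qq z) := by
    rw [Real.one_le_sqrt]
    exact hz.trans (tot_le_qq z)
  nlinarith [Real.sqrt_nonneg (cV V)]

theorem Z8B_corr_sum (κ X : ℝ) (hX : 1 ≤ X) (z : St V s) :
    0 ≤ ∑ t, corr G κ X t z ∧ ∑ t, corr G κ X t z ≤ cV V * (3 / 2 * X * Real.sqrt (qq z)) := by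
  refine ⟨Finset.sum_nonneg fun t _ => corr_nonneg κ X hX t z, ?_⟩
  calc ∑ t, corr G κ X t z ≤ ∑ t : V, 3 / 2 * X * Real.sqrt (qq z) :=
        Finset.sum_le_sum fun t _ => corr_le κ X hX t z
    _ = cV V * (3 / 2 * X * Real.sqrt (qq z)) := by
        rw [Finset.sum_const, Finset.card_univ, nsmul_eq_mul]
        rfl

theorem HH_lower {f : St V s → ℝ} (hf : BadF G f) (τ : ℝ) (hτ : 0 < τ) (hτ0 : τ ≤ tau0 V)
    (F0 : Flag G s 0)
    (h0 : ∀ F0 : Flag G s 0, ∀ E, 0 < E → E ≤ cV V + 2 → ¬ Ext F0 τ f E)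
    (B κ X : ℝ) (hB : 0 < B) (hκ : 0 < κ) (hX : 1 ≤ X) :
    ∃ ε > 0, ∀ z : St V s, 1 ≤ tot z → f z < ε → qq z / 4 ≤ HH F0 τ B κ X z := by
  have hn : (0 : ℝ) ≤ cV V := B1_cV_nonneg
  set E : ℝ := min 1 (1 / (16 * B)) with hEdef
  have hE0 : 0 < E := lt_min one_pos (by positivity)
  have hE1 : E ≤ 1 := min_le_left _ _
  have hE2 : E ≤ 1 / (16 * B) := min_le_right _ _
  have h1 := h0 F0 E hE0 (by linarith)
  unfold Ext at h1
  push Not at h1
  obtain ⟨δ, hδ, ε1, hε1, K, hK, h1⟩ := h1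
  set A : ℝ := 6 * (B / τ + 3 / 2) * cV V * X with hA
  have hBτ : 0 < B / τ := div_pos hB hτ
  have hA0 : 0 ≤ A := by
    rw [hA]
    positivity
  obtain ⟨c, hc, hpos⟩ := hf.pos (K ^ 2 * cV V + A ^ 2)
  refine ⟨min ε1 c, lt_min hε1 hc, fun z hz hfz => ?_⟩
  have hfz1 : f z < ε1 := hfz.trans_le (min_le_left _ _)
  have hfz2 : f z < c := hfz.trans_le (min_le_right _ _)
  have hq : K ^ 2 * cV V + A ^ 2 < qq z := by
    by_contra hcon
    push Not at hcon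
    exact absurd (hpos z hz hcon) (not_le.2 hfz2)
  have hq0 := Z8B_qq_nonneg z
  set ρ := Real.sqrt (qq z) with hρ
  have hρ0 : 0 ≤ ρ := Real.sqrt_nonneg _
  have hρ2 : ρ * ρ = qq z := Real.mul_self_sqrt hq0
  have hAρ : A ≤ ρ := by
    apply Real.le_sqrt_of_sq_le
    have : 0 ≤ K ^ 2 * cV V := by positivity
    linarith
  have hKN : K * tot z ≤ qq z := by
    have e1 := tot_le_rho z
    have e2 : K * Real.sqrt (cV V) ≤ ρ := by
      apply Real.le_sqrt_of_sq_le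
      rw [mul_pow, Real.sq_sqrt hn]
      have := sq_nonneg A
      linarith
    calc K * tot z ≤ K * (Real.sqrt (cV V) * ρ) := mul_le_mul_of_nonneg_left e1 hK.le
      _ = (K * Real.sqrt (cV V)) * ρ := by ring
      _ ≤ ρ * ρ := mul_le_mul_of_nonneg_right e2 hρ0
      _ = qq z := hρ2
  have hreg : F0.Reg δ δ z :=
    ⟨hz, fun v hv => absurd hv (Z8B_I F0 v), fun j => j.elim0, fun i => i.elim0,
      fun j => j.elim0, fun j => j.elim0⟩
  have henv := h1 z hreg hfz1 (by rw [Z8B_o2]; exact hKN)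
  have hsm := env_small F0 τ hτ hτ0 E hE0 hE1 z henv
  have hBe : B * F0.env 0 τ z ≤ qq z / 2 := by
    have e1 : B * (8 * E * qq z) ≤ qq z / 2 := by
      have e2 : B * E ≤ 1 / 16 := by
        calc B * E ≤ B * (1 / (16 * B)) := mul_le_mul_of_nonneg_left hE2 hB.le
          _ = 1 / 16 := by field_simp
      nlinarith
    exact (mul_le_mul_of_nonneg_left hsm hB.le).trans e1
  have hcs := (Z8B_corr_sum (G := G) κ X hX z).2
  have hcs2 : (B / τ + 3 / 2) * ∑ t, corr G κ X t z ≤ qq z / 4 := by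
    have e1 : (B / τ + 3 / 2) * ∑ t, corr G κ X t z ≤
        (B / τ + 3 / 2) * (cV V * (3 / 2 * X * ρ)) :=
      mul_le_mul_of_nonneg_left hcs (by linarith)
    have e2 : (B / τ + 3 / 2) * (cV V * (3 / 2 * X * ρ)) = A * ρ / 4 := by
      rw [hA]
      ring
    have e3 : A * ρ ≤ ρ * ρ := mul_le_mul_of_nonneg_right hAρ hρ0
    linarith
  unfold HH
  linarith

theorem Z8B_dsq_le (z : St V s) (c : V → Fin s) (y : V → ℝ) :
    dsq z.c (nR z) c y ≤ 2 * qq z + 2 * ∑ v, y v ^ 2 := by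
  have h : ∀ v, (nR z v - eps (z.c v) (c v) * y v) ^ 2 ≤ 2 * (z.n v : ℝ) ^ 2 + 2 * y v ^ 2 := by
    intro v
    have e1 := b3_eps_sq (z.c v) (c v)
    have e2 : (eps (z.c v) (c v) * y v) ^ 2 = y v ^ 2 := by
      calc (eps (z.c v) (c v) * y v) ^ 2 = (eps (z.c v) (c v) * eps (z.c v) (c v)) * y v ^ 2 := by
            ring
        _ = y v ^ 2 := by rw [e1, one_mul]
    have e3 : nR z v = (z.n v : ℝ) := rfl
    rw [e3]
    nlinarith [sq_nonneg ((z.n v : ℝ) + eps (z.c v) (c v) * y v)]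
  unfold dsq qq
  rw [Finset.mul_sum, Finset.mul_sum, ← Finset.sum_add_distrib]
  exact Finset.sum_le_sum fun v _ => h v

/-- one step changes the envelope by at most a multiple of `√qq` -/
theorem Z8B_env_step (F0 : Flag G s 0) (τ : ℝ) (hτ : 0 < τ) (hτ0 : τ ≤ tau0 V) (z : St V s)
    (hz : 1 ≤ tot z) (w : V) :
    |F0.env 0 τ (step G z w) - F0.env 0 τ z| ≤
      (cV V * (2 * Real.sqrt (2 + 16 * (1 + Real.sqrt (cV V)) ^ 2) + 1)) / τ *
        Real.sqrt (qq z) := by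
  have hn : (0 : ℝ) ≤ cV V := B1_cV_nonneg
  have h0 : |(0 : ℝ)| ≤ cV V + 2 := by rw [abs_zero]; linarith
  have hq0 := Z8B_qq_nonneg z
  have hq0' := Z8B_qq_nonneg (step G z w)
  have hρ1 : 1 ≤ Real.sqrt (qq z) := by
    rw [Real.one_le_sqrt]
    exact hz.trans (tot_le_qq z)
  have hstep := Z8B_qq_step (G := G) z hz w
  set ρ := Real.sqrt (qq z) with hρ
  have hρ2 : ρ ^ 2 = qq z := Real.sq_sqrt hq0
  have hs0 : 0 ≤ Real.sqrt (cV V) := Real.sqrt_nonneg _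
  set M : ℝ := Real.sqrt (2 + 16 * (1 + Real.sqrt (cV V)) ^ 2) with hM
  have hqq' : qq (step G z w) ≤ (1 + Real.sqrt (cV V)) ^ 2 * qq z := by
    have e1 : Real.sqrt (qq (step G z w)) ^ 2 ≤ ((1 + Real.sqrt (cV V)) * ρ) ^ 2 :=
      pow_le_pow_left₀ (Real.sqrt_nonneg _) hstep 2
    rw [Real.sq_sqrt hq0', mul_pow, hρ2] at e1
    exact e1
  -- the square root of the distance
  have hd : ∀ (c : V → Fin s) (y : V → ℝ), ∑ v, y v ^ 2 ≤ 8 * ((1 + Real.sqrt (cV V)) ^ 2 * qq z) →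
      cV V * (2 * Real.sqrt (dsq z.c (nR z) c y) + 1) ≤ cV V * (2 * M + 1) * ρ := by
    intro c y hy
    have e1 := Z8B_dsq_le z c y
    have e2 : dsq z.c (nR z) c y ≤ (2 + 16 * (1 + Real.sqrt (cV V)) ^ 2) * qq z := by linarith
    have e3 : Real.sqrt (dsq z.c (nR z) c y) ≤ M * ρ := by
      rw [hM, hρ, ← Real.sqrt_mul (by positivity)]
      exact Real.sqrt_le_sqrt e2
    have e4 : 2 * Real.sqrt (dsq z.c (nR z) c y) + 1 ≤ (2 * M + 1) * ρ := by linarith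
    calc cV V * (2 * Real.sqrt (dsq z.c (nR z) c y) + 1) ≤ cV V * ((2 * M + 1) * ρ) :=
          mul_le_mul_of_nonneg_left e4 hn
      _ = cV V * (2 * M + 1) * ρ := by ring
  have hconv : cV V * (2 * M + 1) / τ * ρ = cV V * (2 * M + 1) * ρ / τ := by ring
  rw [hconv, abs_le]
  constructor
  · -- a maximiser of z
    obtain ⟨c, y, h⟩ := F0.exists_mx 0 τ h0 hτ hτ0 z
    have e1 := F0.le_env 0 τ h0 hτ hτ0 (step G z w) c y h.1
    have e2 := F0.env_eq 0 τ z c y h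
    rw [Z8B_val] at e1 e2
    have e3 := (abs_le.1 (step_dsq_abs (G := G) z w c y)).2
    have hy : ∑ v, y v ^ 2 ≤ 8 * ((1 + Real.sqrt (cV V)) ^ 2 * qq z) := by
      have e5 := Z8B_mx F0 τ hτ hτ0 z c y h
      have e6 : 1 ≤ (1 + Real.sqrt (cV V)) ^ 2 := by nlinarith
      have e7 : 1 * qq z ≤ (1 + Real.sqrt (cV V)) ^ 2 * qq z := mul_le_mul_of_nonneg_right e6 hq0
      linarith
    have e4 := hd c y hy
    have e5 : (dsq (step G z w).c (nR (step G z w)) c y - dsq z.c (nR z) c y) / τ ≤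
        cV V * (2 * M + 1) * ρ / τ := div_le_div_of_nonneg_right (e3.trans e4) hτ.le
    rw [sub_div] at e5
    linarith
  · -- a maximiser of the next state
    obtain ⟨c, y, h⟩ := F0.exists_mx 0 τ h0 hτ hτ0 (step G z w)
    have e1 := F0.le_env 0 τ h0 hτ hτ0 z c y h.1
    have e2 := F0.env_eq 0 τ (step G z w) c y h
    rw [Z8B_val] at e1 e2
    have e3 := (abs_le.1 (step_dsq_abs (G := G) z w c y)).1
    have hy : ∑ v, y v ^ 2 ≤ 8 * ((1 + Real.sqrt (cV V)) ^ 2 * qq z) := by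
      have e5 := Z8B_mx F0 τ hτ hτ0 (step G z w) c y h
      linarith
    have e4 := hd c y hy
    have e3' : dsq z.c (nR z) c y - dsq (step G z w).c (nR (step G z w)) c y ≤
        cV V * (2 * M + 1) * ρ := by linarith
    have e5 : (dsq z.c (nR z) c y - dsq (step G z w).c (nR (step G z w)) c y) / τ ≤
        cV V * (2 * M + 1) * ρ / τ :=
      div_le_div_of_nonneg_right e3' hτ.le
    rw [sub_div] at e5
    linarith

theorem HH_step (F0 : Flag G s 0) (τ : ℝ) (hτ : 0 < τ) (hτ0 : τ ≤ tau0 V)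
    (B κ X : ℝ) (hB : 0 < B) (hκ : 0 < κ) (hX : 1 ≤ X) :
    ∃ C > 0, ∀ z : St V s, 1 ≤ tot z → ∀ w, 1 ≤ z.n w →
      |HH F0 τ B κ X (step G z w) - HH F0 τ B κ X z| ≤ C * Real.sqrt (qq z) := by
  have hn : (0 : ℝ) ≤ cV V := B1_cV_nonneg
  have hs0 : 0 ≤ Real.sqrt (cV V) := Real.sqrt_nonneg _
  have hBτ : 0 < B / τ := div_pos hB hτ
  set C1 : ℝ := 2 * Real.sqrt (cV V) + cV V with hC1
  set C2 : ℝ := (cV V * (2 * Real.sqrt (2 + 16 * (1 + Real.sqrt (cV V)) ^ 2) + 1)) / τ with hC2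
  set C3 : ℝ := cV V * (3 / 2 * X * (1 + Real.sqrt (cV V))) with hC3
  have hC10 : 0 ≤ C1 := by rw [hC1]; positivity
  have hC20 : 0 ≤ C2 := by rw [hC2]; positivity
  have hC30 : 0 ≤ C3 := by rw [hC3]; positivity
  refine ⟨C1 + B * C2 + (B / τ + 3 / 2) * C3 + 1, by positivity, fun z hz w _ => ?_⟩
  have hq0 := Z8B_qq_nonneg z
  have hq0' := Z8B_qq_nonneg (step G z w)
  have hρ1 : 1 ≤ Real.sqrt (qq z) := by
    rw [Real.one_le_sqrt]
    exact hz.trans (tot_le_qq z)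
  have hstep := Z8B_qq_step (G := G) z hz w
  have hrho := abs_le.1 (rho_step (G := G) z w)
  have henv := Z8B_env_step F0 τ hτ hτ0 z hz w
  rw [← hC2] at henv
  have hc1 := Z8B_corr_sum (G := G) κ X hX z
  have hc2 := Z8B_corr_sum (G := G) κ X hX (step G z w)
  set ρ := Real.sqrt (qq z) with hρ
  set ρ' := Real.sqrt (qq (step G z w)) with hρ'
  have hρ2 : ρ ^ 2 = qq z := Real.sq_sqrt hq0
  have hρ2' : ρ' ^ 2 = qq (step G z w) := Real.sq_sqrt hq0'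
  have hρ'0 : 0 ≤ ρ' := Real.sqrt_nonneg _
  have hsq : Real.sqrt (cV V) ^ 2 = cV V := Real.sq_sqrt hn
  -- the first term
  have h1 : |qq (step G z w) - qq z| ≤ C1 * ρ := by
    rw [← hρ2, ← hρ2', hC1]
    have e1 : ρ' ^ 2 - ρ ^ 2 = (ρ' - ρ) * (ρ' + ρ) := by ring
    rw [e1, abs_mul, abs_of_nonneg (by linarith : 0 ≤ ρ' + ρ)]
    have e2 : |ρ' - ρ| ≤ Real.sqrt (cV V) := abs_le.2 hrho
    have e3 : ρ' + ρ ≤ 2 * ρ + Real.sqrt (cV V) := by linarith [hrho.2]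
    calc |ρ' - ρ| * (ρ' + ρ) ≤ Real.sqrt (cV V) * (2 * ρ + Real.sqrt (cV V)) :=
          mul_le_mul e2 e3 (by linarith) hs0
      _ = 2 * Real.sqrt (cV V) * ρ + Real.sqrt (cV V) ^ 2 * 1 := by ring
      _ = 2 * Real.sqrt (cV V) * ρ + cV V * 1 := by rw [hsq]
      _ ≤ 2 * Real.sqrt (cV V) * ρ + cV V * ρ := by
          have := mul_le_mul_of_nonneg_left hρ1 hn
          linarith
      _ = (2 * Real.sqrt (cV V) + cV V) * ρ := by ring
  -- the third term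
  have h3 : |∑ t, corr G κ X t (step G z w) - ∑ t, corr G κ X t z| ≤ C3 * ρ := by
    have e1 : cV V * (3 / 2 * X * ρ') ≤ C3 * ρ := by
      have : cV V * (3 / 2 * X * ρ') ≤ cV V * (3 / 2 * X * ((1 + Real.sqrt (cV V)) * ρ)) := by
        apply mul_le_mul_of_nonneg_left _ hn
        exact mul_le_mul_of_nonneg_left hstep (by linarith)
      refine this.trans (le_of_eq ?_)
      rw [hC3]
      ring
    have e2 : cV V * (3 / 2 * X * ρ) ≤ C3 * ρ := by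
      have : cV V * (3 / 2 * X * ρ) ≤ cV V * (3 / 2 * X * ((1 + Real.sqrt (cV V)) * ρ)) := by
        apply mul_le_mul_of_nonneg_left _ hn
        apply mul_le_mul_of_nonneg_left _ (by linarith)
        nlinarith
      refine this.trans (le_of_eq ?_)
      rw [hC3]
      ring
    rw [abs_le]
    constructor <;> linarith [hc1.1, hc1.2, hc2.1, hc2.2]
  have hid : HH F0 τ B κ X (step G z w) - HH F0 τ B κ X z =
      (qq (step G z w) - qq z) - B * (F0.env 0 τ (step G z w) - F0.env 0 τ z) -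
        (B / τ + 3 / 2) * (∑ t, corr G κ X t (step G z w) - ∑ t, corr G κ X t z) := by
    unfold HH
    ring
  rw [hid]
  have h2 : |B * (F0.env 0 τ (step G z w) - F0.env 0 τ z)| ≤ B * (C2 * ρ) := by
    rw [abs_mul, abs_of_pos hB]
    exact mul_le_mul_of_nonneg_left henv hB.le
  have h4 : |(B / τ + 3 / 2) * (∑ t, corr G κ X t (step G z w) - ∑ t, corr G κ X t z)| ≤
      (B / τ + 3 / 2) * (C3 * ρ) := by
    rw [abs_mul, abs_of_nonneg (by linarith : 0 ≤ B / τ + 3 / 2)]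
    exact mul_le_mul_of_nonneg_left h3 (by linarith)
  rw [abs_le] at h1 h2 h4 ⊢
  constructor <;> nlinarith [h1.1, h1.2, h2.1, h2.2, h4.1, h4.2]

/-- `HH ≥ 0` on bad states and after one more step -/
theorem HH_nonneg {f : St V s → ℝ} (hf : BadF G f) (τ : ℝ) (hτ : 0 < τ) (hτ0 : τ ≤ tau0 V)
    (F0 : Flag G s 0)
    (h0 : ∀ F0 : Flag G s 0, ∀ E, 0 < E → E ≤ cV V + 2 → ¬ Ext F0 τ f E)
    (B κ X : ℝ) (hB : 0 < B) (hκ : 0 < κ) (hX : 1 ≤ X) :
    ∃ ε > 0, ∀ z : St V s, 1 ≤ tot z → f z < ε → 0 ≤ HH F0 τ B κ X z ∧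
      ∀ w, 1 ≤ z.n w → 0 ≤ HH F0 τ B κ X (step G z w) := by
  obtain ⟨ε1, hε1, h1⟩ := HH_lower hf τ hτ hτ0 F0 h0 B κ X hB hκ hX
  obtain ⟨C, hC, h2⟩ := HH_step F0 τ hτ hτ0 B κ X hB hκ hX
  obtain ⟨c, hc, hpos⟩ := hf.pos ((4 * C) ^ 2)
  refine ⟨min ε1 c, lt_min hε1 hc, fun z hz hfz => ?_⟩
  have hfz1 : f z < ε1 := hfz.trans_le (min_le_left _ _)
  have hfz2 : f z < c := hfz.trans_le (min_le_right _ _)
  have hq : (4 * C) ^ 2 < qq z := by
    by_contra hcon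
    push Not at hcon
    exact absurd (hpos z hz hcon) (not_le.2 hfz2)
  have hq0 := Z8B_qq_nonneg z
  have h3 := h1 z hz hfz1
  refine ⟨by linarith, fun w hw => ?_⟩
  have h4 := (abs_le.1 (h2 z hz w hw)).1
  have h5 : 4 * C ≤ Real.sqrt (qq z) := Real.le_sqrt_of_sq_le hq.le
  have h6 : Real.sqrt (qq z) * Real.sqrt (qq z) = qq z := Real.mul_self_sqrt hq0
  have h7 : 4 * C * Real.sqrt (qq z) ≤ Real.sqrt (qq z) * Real.sqrt (qq z) :=
    mul_le_mul_of_nonneg_right h5 (Real.sqrt_nonneg _)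
  linarith

end UC
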